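import Pool.Agent.W737.SB.Defs

/-!
# SB-PSC: a `C²` domain biholomorphic to the ball is Levi pseudoconvex (for the height function)
-/

set_option autoImplicit false

open Metric Set Filter Topology

namespace Pool.Agent.W591.SB

open Pool.Agent.W737.SB

variable {n : ℕ}

/-! ### algebra -/

theorem smul_decomp (c : ℂ) (X : V n) : c • X = (c.re : ℝ) • X + (c.im : ℝ) • (Complex.I • X) := by
  ext i
  simp only [PiLp.smul_apply, PiLp.add_apply, smul_eq_mul, Complex.real_smul]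
  conv_lhs => rw [← Complex.re_add_im c]
  ring

theorem I_smul_decomp (c : ℂ) (X : V n) :
    Complex.I • (c • X) = (c.re : ℝ) • (Complex.I • X) - (c.im : ℝ) • X := by
  rw [smul_smul, smul_decomp (Complex.I * c) X, Complex.I_mul_re, Complex.I_mul_im, neg_smul]
  abel

theorem norm_I_smul (X : V n) : ‖Complex.I • X‖ = ‖X‖ := by
  rw [norm_smul, Complex.norm_I, one_mul]

/-- the complex linear functional with real part `L` -/
noncomputable def el (L : V n →L[ℝ] ℝ) (X : V n) : ℂ :=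
  ((L X : ℝ) : ℂ) - Complex.I * ((L (Complex.I • X) : ℝ) : ℂ)

theorem re_el (L : V n →L[ℝ] ℝ) (X : V n) : (el L X).re = L X := by
  unfold el
  simp

theorem el_smul (L : V n →L[ℝ] ℝ) (c : ℂ) (X : V n) : el L (c • X) = c * el L X := by
  unfold el
  have h1 : L (c • X) = c.re * L X + c.im * L (Complex.I • X) := by
    rw [smul_decomp c X, map_add, L.map_smul, L.map_smul, smul_eq_mul, smul_eq_mul]
  have h2 : L (Complex.I • (c • X)) = c.re * L (Complex.I • X) - c.im * L X := by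
    rw [I_smul_decomp, map_sub, L.map_smul, L.map_smul, smul_eq_mul, smul_eq_mul]
  rw [h1, h2]
  conv_rhs => rw [← Complex.re_add_im c]
  push_cast
  linear_combination ((c.im : ℂ) * ((L (Complex.I • X) : ℝ) : ℂ)) * Complex.I_sq

theorem el_add (L : V n →L[ℝ] ℝ) (X Y : V n) : el L (X + Y) = el L X + el L Y := by
  unfold el
  rw [smul_add, map_add, map_add]
  push_cast
  ring

theorem el_eq_zero {L : V n →L[ℝ] ℝ} {X : V n} (h : el L X = 0) :
    L X = 0 ∧ L (Complex.I • X) = 0 := by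
  unfold el at h
  have h1 := congrArg Complex.re h
  have h2 := congrArg Complex.im h
  simp at h1 h2
  exact ⟨h1, h2⟩

theorem norm_el_le (L : V n →L[ℝ] ℝ) (X : V n) : ‖el L X‖ ≤ |L X| + |L (Complex.I • X)| := by
  unfold el
  refine (norm_sub_le _ _).trans ?_
  rw [norm_mul, Complex.norm_I, one_mul, Complex.norm_real, Complex.norm_real, Real.norm_eq_abs,
    Real.norm_eq_abs]

variable (B : V n →L[ℝ] V n →L[ℝ] ℝ)

/-- four times the Levi form -/
noncomputable def hh (w : V n) : ℝ := B w w + B (Complex.I • w) (Complex.I • w)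

/-- the complex number encoding the (2,0)-part of the Hessian -/
noncomputable def qq (w : V n) : ℂ :=
  (((1 / 2) * (B w w - B (Complex.I • w) (Complex.I • w)) : ℝ) : ℂ)
    - Complex.I * ((B w (Complex.I • w) : ℝ) : ℂ)

theorem hess_smul (hB : ∀ v w, B v w = B w v) (w : V n) (t : ℂ) :
    B (t • w) (t • w) = ‖t‖ ^ 2 / 2 * hh B w + (t ^ 2 * qq B w).re := by
  have h1 : ‖t‖ ^ 2 = t.re ^ 2 + t.im ^ 2 := by
    rw [Complex.sq_norm, Complex.normSq_apply]; ring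
  rw [h1]
  unfold qq hh
  rw [smul_decomp t w]
  simp only [map_add, map_smul, add_apply, smul_apply, smul_eq_mul]
  rw [hB (Complex.I • w) w]
  have h2 : (t ^ 2).re = t.re ^ 2 - t.im ^ 2 := by
    rw [sq, Complex.mul_re]; ring
  have h3 : (t ^ 2).im = 2 * t.re * t.im := by
    rw [sq, Complex.mul_im]; ring
  rw [Complex.mul_re, h2, h3]
  simp
  ring

theorem key {K : ℝ} (hK : ‖B‖ ≤ K) (X Y : V n) : |B X Y| ≤ K * ‖X‖ * ‖Y‖ := by
  have h1 := B.le_opNorm₂ X Y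
  rw [Real.norm_eq_abs] at h1
  refine h1.trans ?_
  gcongr

/-- Step 3: perturbation of a complex tangential direction -/
theorem step3 (hB : ∀ v w, B v w = B w v) {K A : ℝ} (hK : ‖B‖ ≤ K) (hK0 : 0 ≤ K) (hA : 0 ≤ A)
    (L : V n →L[ℝ] ℝ) (hL : ‖L‖ ≤ A) (ν : V n) (hν : ‖ν‖ = 1) (hLν : 1 ≤ ‖el L ν‖)
    (hlevi : ∀ v, L v = 0 → L (Complex.I • v) = 0 → hh B v ≤ 0) (v : V n) :
    hh B v ≤ (4 * K * (1 + 2 * A) + 4 * K * A) * ‖v‖ * (|L v| + |L (Complex.I • v)|) := by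
  have hne : el L ν ≠ 0 := by
    intro h
    rw [h, norm_zero] at hLν
    linarith
  set l : ℂ := el L v / el L ν with hl
  set v' : V n := v - l • ν with hv'
  have hvv : v = v' + l • ν := by rw [hv']; abel
  have hel : el L v' = 0 := by
    have h1 : el L v = el L v' + l * el L ν := by
      conv_lhs => rw [hvv]
      rw [el_add, el_smul]
    have h2 : l * el L ν = el L v := by
      rw [hl, div_mul_cancel₀ _ hne]
    rw [h2] at h1
    exact left_eq_add.1 (by rw [add_comm]; exact h1)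
  obtain ⟨e1, e2⟩ := el_eq_zero hel
  have h0 := hlevi v' e1 e2
  have hlb : ‖l‖ ≤ |L v| + |L (Complex.I • v)| := by
    rw [hl, norm_div]
    refine (div_le_self (norm_nonneg _) hLν).trans (norm_el_le L v)
  have hLv : |L v| ≤ A * ‖v‖ := by
    have := L.le_opNorm v
    rw [Real.norm_eq_abs] at this
    exact this.trans (mul_le_mul_of_nonneg_right hL (norm_nonneg _))
  have hLIv : |L (Complex.I • v)| ≤ A * ‖v‖ := by
    have := L.le_opNorm (Complex.I • v)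
    rw [Real.norm_eq_abs, norm_I_smul] at this
    exact this.trans (mul_le_mul_of_nonneg_right hL (norm_nonneg _))
  have hl2 : ‖l‖ ≤ 2 * A * ‖v‖ := by linarith
  have hlν : ‖l • ν‖ = ‖l‖ := by rw [norm_smul, hν, mul_one]
  have hv'b : ‖v'‖ ≤ (1 + 2 * A) * ‖v‖ := by
    rw [hv']
    refine (norm_sub_le _ _).trans ?_
    rw [hlν]
    linarith
  -- expansion
  have hexp : ∀ X Y : V n, B (X + Y) (X + Y) = B X X + 2 * B X Y + B Y Y := by
    intro X Y
    have : B (X + Y) = B X + B Y := map_add _ _ _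
    rw [this, add_apply, map_add, map_add, hB Y X]
    ring
  have h1 : hh B v = hh B v' + 2 * (B v' (l • ν) + B (Complex.I • v') (Complex.I • (l • ν))) +
      (B (l • ν) (l • ν) + B (Complex.I • (l • ν)) (Complex.I • (l • ν))) := by
    conv_lhs => rw [hvv]
    unfold hh
    rw [smul_add, hexp, hexp]
    ring
  have k1 := (le_abs_self _).trans (key B hK v' (l • ν))
  have k2 := (le_abs_self _).trans (key B hK (Complex.I • v') (Complex.I • (l • ν)))
  have k3 := (le_abs_self _).trans (key B hK (l • ν) (l • ν))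
  have k4 := (le_abs_self _).trans (key B hK (Complex.I • (l • ν)) (Complex.I • (l • ν)))
  rw [norm_I_smul, norm_I_smul] at k2
  rw [norm_I_smul] at k4
  rw [hlν] at k1 k2 k3 k4
  have k5 : K * ‖v'‖ * ‖l‖ ≤ K * ((1 + 2 * A) * ‖v‖) * ‖l‖ := by gcongr
  have k6 : K * ‖l‖ * ‖l‖ ≤ K * (2 * A * ‖v‖) * ‖l‖ := by gcongr
  have k7 : hh B v ≤ (4 * K * (1 + 2 * A) + 4 * K * A) * ‖v‖ * ‖l‖ := by
    rw [h1]
    nlinarith
  exact k7.trans (mul_le_mul_of_nonneg_left hlb (by positivity))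

theorem bdd_C0 {E F : Type*} [NormedAddCommGroup E] [NormedAddCommGroup F] {G : E → F} {s : Set E}
    (hs : IsCompact s) (hG : ContinuousOn G s) : ∃ K : ℝ, ∀ x ∈ s, ‖G x‖ ≤ K :=
  hs.exists_bound_of_continuousOn hG

/-- the second derivative is bounded on compact sets -/
theorem bdd_gen {E : Type*} [NormedAddCommGroup E] [NormedSpace ℝ E] {h : E → ℝ} {s : Set E}
    (hs : IsCompact s) (hc : ∀ x ∈ s, ContDiffAt ℝ 2 h x) :
    ∃ K : ℝ, ∀ x ∈ s, ‖fderiv ℝ (fderiv ℝ h) x‖ ≤ K := by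
  refine bdd_C0 (F := E →L[ℝ] E →L[ℝ] ℝ) (G := fderiv ℝ (fderiv ℝ h)) hs (fun x hx => ?_)
  have h1 : ContDiffAt ℝ 1 (fderiv ℝ h) x := (hc x hx).fderiv_right (by norm_num)
  exact (h1.fderiv_right (m := 0) (by norm_num)).continuousAt.continuousWithinAt

/-! ### second order expansion at a point -/

theorem taylor {h : V n → ℝ} {U : Set (V n)} (hU : IsOpen U) {q : V n} (hq : q ∈ U)
    (hd : ∀ x ∈ U, HasFDerivAt h (fderiv ℝ h x) x)
    (hd1 : HasFDerivAt (fderiv ℝ h) (fderiv ℝ (fderiv ℝ h) q) q)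
    (hs : ∀ v w, fderiv ℝ (fderiv ℝ h) q v w = fderiv ℝ (fderiv ℝ h) q w v) {ε : ℝ} (hε : 0 < ε) :
    ∃ δ : ℝ, 0 < δ ∧ ∀ X : V n, ‖X‖ ≤ δ → q + X ∈ U ∧
      |h (q + X) - h q - fderiv ℝ h q X - (1 / 2) * fderiv ℝ (fderiv ℝ h) q X X| ≤ ε * ‖X‖ ^ 2 := by
  set B := fderiv ℝ (fderiv ℝ h) q with hB
  have h1 := hd1.isLittleO.def hε
  obtain ⟨δ₁, hδ₁, hsub1⟩ := Metric.mem_nhds_iff.1 (hU.mem_nhds hq)
  obtain ⟨δ₂, hδ₂, hsub2⟩ := Metric.mem_nhds_iff.1 h1
  refine ⟨min δ₁ δ₂ / 2, by positivity, fun X hX => ?_⟩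
  have hm1 : min δ₁ δ₂ ≤ δ₁ := min_le_left _ _
  have hm2 : min δ₁ δ₂ ≤ δ₂ := min_le_right _ _
  have hm0 : 0 < min δ₁ δ₂ := lt_min hδ₁ hδ₂
  have hin : ∀ x ∈ closedBall q ‖X‖, x ∈ U ∧ ‖fderiv ℝ h x - fderiv ℝ h q - B (x - q)‖ ≤ ε * ‖X‖ := by
    intro x hx
    rw [mem_closedBall] at hx
    refine ⟨hsub1 ?_, ?_⟩
    · rw [mem_ball]; linarith
    · have h2 : x ∈ ball q δ₂ := by rw [mem_ball]; linarith
      have h3 := hsub2 h2
      simp only [Set.mem_ofPred_eq] at h3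
      refine h3.trans (mul_le_mul_of_nonneg_left ?_ hε.le)
      rwa [← dist_eq_norm]
  have hq' : q ∈ closedBall q ‖X‖ := mem_closedBall_self (norm_nonneg _)
  have hqX : q + X ∈ closedBall q ‖X‖ := by
    rw [mem_closedBall, dist_eq_norm, add_sub_cancel_left]
  refine ⟨(hin _ hqX).1, ?_⟩
  have hφ : ∀ x ∈ closedBall q ‖X‖, HasFDerivAt (fun x => h x - (1 / 2) * B (x - q) (x - q))
      (fderiv ℝ h x - B (x - q)) x := by
    intro x hx
    have h1 : HasFDerivAt (fun x : V n => x - q) (ContinuousLinearMap.id ℝ (V n)) x :=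
      (hasFDerivAt_id x).sub_const q
    have h2 : HasFDerivAt (fun x : V n => B (x - q)) (B.comp (ContinuousLinearMap.id ℝ (V n))) x :=
      B.hasFDerivAt.comp x h1
    have h3 := (h2.clm_apply h1).const_mul (1 / 2 : ℝ)
    refine ((hd x (hin x hx).1).sub h3).congr_fderiv ?_
    ext v
    simp only [sub_apply, smul_apply, add_apply, ContinuousLinearMap.comp_apply,
      ContinuousLinearMap.id_apply, ContinuousLinearMap.flip_apply, smul_eq_mul]
    have h4 : B v (x - q) = B (x - q) v := hs _ _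
    rw [h4]
    ring
  have h2 := (convex_closedBall q ‖X‖).norm_image_sub_le_of_norm_hasFDerivWithin_le'
    (𝕜 := ℝ) (φ := fderiv ℝ h q) (f := fun x => h x - (1 / 2) * B (x - q) (x - q))
    (f' := fun x => fderiv ℝ h x - B (x - q)) (C := ε * ‖X‖)
    (fun x hx => (hφ x hx).hasFDerivWithinAt) (fun x hx => by
      have := (hin x hx).2
      rwa [sub_right_comm] at this) hq' hqX
  simp only [add_sub_cancel_left, sub_self, map_zero, mul_zero, sub_zero,
    Real.norm_eq_abs] at h2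
  have h3 : h (q + X) - h q - fderiv ℝ h q X - (1 / 2) * B X X =
      h (q + X) - (1 / 2) * B X X - h q - fderiv ℝ h q X := by ring
  rw [h3]
  refine h2.trans (le_of_eq ?_)
  ring

/-! ### the height function -/

section ht
variable {Ω : Set (V n)} {ρ : V n → ℝ} {p ν : V n} {h : V n → ℝ} {r₀ C : ℝ}

theorem ht_cd (hH : Ht ρ p ν h r₀ C) {x : V n} (hx : x ∈ ball p r₀) : ContDiffAt ℝ 2 h x :=
  hH.smooth.contDiffAt (isOpen_ball.mem_nhds hx)

theorem ht_d (hH : Ht ρ p ν h r₀ C) {x : V n} (hx : x ∈ ball p r₀) :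
    HasFDerivAt h (fderiv ℝ h x) x :=
  ((ht_cd hH hx).differentiableAt (by norm_num)).hasFDerivAt

theorem ht_cd1 (hH : Ht ρ p ν h r₀ C) {x : V n} (hx : x ∈ ball p r₀) :
    ContDiffAt ℝ 1 (fderiv ℝ h) x :=
  (ht_cd hH hx).fderiv_right (by norm_num)

theorem ht_d1 (hH : Ht ρ p ν h r₀ C) {x : V n} (hx : x ∈ ball p r₀) :
    HasFDerivAt (fderiv ℝ h) (fderiv ℝ (fderiv ℝ h) x) x :=
  ((ht_cd1 hH hx).differentiableAt (by norm_num)).hasFDerivAt

theorem ht_symm (hH : Ht ρ p ν h r₀ C) {x : V n} (hx : x ∈ ball p r₀) (v w : V n) :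
    fderiv ℝ (fderiv ℝ h) x v w = fderiv ℝ (fderiv ℝ h) x w v :=
  ((ht_cd hH hx).isSymmSndFDerivAt (by
    simp only [minSmoothness_of_isRCLikeNormedField]
    exact le_rfl)).eq v w

theorem ht_nu (hH : Ht ρ p ν h r₀ C) {x : V n} (hx : x ∈ ball p r₀) : fderiv ℝ h x ν = -1 := by
  have h1 : HasDerivAt (fun s : ℝ => x + s • ν) ((1 : ℝ) • ν) 0 :=
    ((hasDerivAt_id (0 : ℝ)).smul_const ν).const_add x
  have h2 : HasFDerivAt h (fderiv ℝ h x) (x + (0 : ℝ) • ν) := by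
    rw [zero_smul, add_zero]
    exact ht_d hH hx
  have h3 : HasDerivAt (fun s : ℝ => h (x + s • ν)) (fderiv ℝ h x ((1 : ℝ) • ν)) 0 :=
    h2.comp_hasDerivAt (0 : ℝ) h1
  have hev : (fun s : ℝ => h (x + s • ν)) =ᶠ[𝓝 0] fun s : ℝ => h x - s := by
    have hc : ContinuousAt (fun s : ℝ => x + s • ν) 0 := h1.continuousAt
    have hm : ∀ᶠ s : ℝ in 𝓝 0, x + s • ν ∈ ball p r₀ :=
      hc.eventually_mem (isOpen_ball.mem_nhds (by simpa using hx))
    filter_upwards [hm] with s hs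
    have := hH.shift x hx s (by rw [Complex.coe_smul]; exact hs)
    rwa [Complex.coe_smul] at this
  have h4 : HasDerivAt (fun s : ℝ => h x - s) (-1) 0 := by
    simpa using (hasDerivAt_id (0 : ℝ)).const_sub (h x)
  have h5 := (h3.congr_of_eventuallyEq hev.symm).unique h4
  rwa [one_smul] at h5

theorem ht_el (hH : Ht ρ p ν h r₀ C) {x : V n} (hx : x ∈ ball p r₀) :
    1 ≤ ‖el (fderiv ℝ h x) ν‖ := by
  have h1 := Complex.abs_re_le_norm (el (fderiv ℝ h x) ν)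
  rw [re_el, ht_nu hH hx] at h1
  simpa using h1

theorem mem_Om (hΩ : Dat Ω ρ) (hH : Ht ρ p ν h r₀ C) {x : V n} (hx : x ∈ ball p r₀)
    (hpos : 0 < h x) : x ∈ Ω := by
  rw [hΩ.eq]
  exact (hH.sign x hx).2 hpos

set_option maxHeartbeats 1000000 in
/-- Step 1 -/
theorem step1 (hΩ : Dat Ω ρ) (hH : Ht ρ p ν h r₀ C) {q : V n} (hq : q ∈ ball p r₀)
    (hq0 : h q = 0) {v : V n} (hv : fderiv ℝ h q v = 0)
    (hIv : fderiv ℝ h q (Complex.I • v) = 0) : hh (fderiv ℝ (fderiv ℝ h) q) v ≤ 0 := by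
  by_contra hcon
  push Not at hcon
  set B := fderiv ℝ (fderiv ℝ h) q with hB
  set L := fderiv ℝ h q with hL
  set H := hh B v with hHd
  have hsym : ∀ v w, B v w = B w v := fun v w => ht_symm hH hq v w
  have hel1 := ht_el hH hq
  rw [← hL] at hel1
  have hne : el L ν ≠ 0 := by
    intro h0
    rw [h0, norm_zero] at hel1
    linarith
  set κ : ℂ := -qq B v / (2 * el L ν) with hκ
  set K := ‖B‖ with hK
  have hK0 : 0 ≤ K := by
    rw [hK]
    exact norm_nonneg (fderiv ℝ (fderiv ℝ h) q)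
  set A : ℝ := ‖v‖ + ‖κ‖ + 1 with hA
  have hA0 : 0 < A := by positivity
  set M : ℝ := 2 * (K * ‖v‖ * ‖κ‖) + K * ‖κ‖ ^ 2 with hM
  have hM0 : 0 ≤ M := by positivity
  have hε : 0 < H / (16 * A ^ 2) := by positivity
  obtain ⟨δ, hδ, hT⟩ := taylor isOpen_ball hq (fun x hx => ht_d hH hx) (ht_d1 hH hq) hsym hε
  set η : ℝ := r₀ - dist q p with hη
  have hη0 : 0 < η := by
    rw [mem_ball] at hq
    linarith
  set R : ℝ := min (min 1 (δ / A)) (min (η / (2 * A)) (H / (8 * (M + 1)))) with hR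
  have hR0 : 0 < R := by
    rw [hR]
    exact lt_min (lt_min one_pos (by positivity)) (lt_min (by positivity) (by positivity))
  have hR1 : R ≤ 1 := (min_le_left _ _).trans (min_le_left _ _)
  have hR2 : A * R ≤ δ := by
    have : R ≤ δ / A := (min_le_left _ _).trans (min_le_right _ _)
    rw [le_div_iff₀ hA0] at this
    linarith
  have hR3 : A * R ≤ η / 2 := by
    have : R ≤ η / (2 * A) := (min_le_right _ _).trans (min_le_left _ _)
    rw [le_div_iff₀ (by positivity)] at this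
    linarith
  have hR4 : R * (8 * (M + 1)) ≤ H := by
    have : R ≤ H / (8 * (M + 1)) := (min_le_right _ _).trans (min_le_right _ _)
    rwa [le_div_iff₀ (by positivity)] at this
  set c2 : ℂ → V n := fun t => t • v + (κ * t ^ 2) • ν with hc2
  have hc2n : ∀ t : ℂ, ‖t‖ ≤ R → ‖c2 t‖ ≤ A * ‖t‖ := by
    intro t ht
    simp only [hc2]
    refine (norm_add_le _ _).trans ?_
    rw [norm_smul, norm_smul, norm_mul, norm_pow, hH.hν, mul_one]
    have h1 : ‖t‖ ^ 2 ≤ ‖t‖ := by nlinarith [norm_nonneg t]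
    have h2 : ‖κ‖ * ‖t‖ ^ 2 ≤ ‖κ‖ * ‖t‖ := mul_le_mul_of_nonneg_left h1 (norm_nonneg _)
    rw [hA]
    nlinarith [norm_nonneg t]
  -- lower bound of `h` on the disc
  have hlow : ∀ t : ℂ, ‖t‖ ≤ R → q + c2 t ∈ ball p r₀ ∧ H / 8 * ‖t‖ ^ 2 ≤ h (q + c2 t) := by
    intro t ht
    have hXn := hc2n t ht
    have hXδ : ‖c2 t‖ ≤ δ := hXn.trans ((mul_le_mul_of_nonneg_left ht hA0.le).trans hR2)
    obtain ⟨hin, hTt⟩ := hT (c2 t) hXδ
    refine ⟨hin, ?_⟩
    have h1 := (abs_le.1 hTt).1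
    rw [hq0] at h1
    have hLX : L (c2 t) = -(1 / 2) * (t ^ 2 * qq B v).re := by
      simp only [hc2]
      have e1 : L (t • v) = 0 := by
        rw [smul_decomp t v, map_add, L.map_smul, L.map_smul, hv, hIv]
        simp
      rw [map_add, e1, zero_add, ← re_el, el_smul]
      have e2 : κ * t ^ 2 * el L ν = ((-(1 / 2) : ℝ) : ℂ) * (t ^ 2 * qq B v) := by
        rw [hκ]
        push_cast
        field_simp
      rw [e2, Complex.re_ofReal_mul]
    have hBX : ‖t‖ ^ 2 / 2 * H + (t ^ 2 * qq B v).re - M * ‖t‖ ^ 3 ≤ B (c2 t) (c2 t) := by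
      have e1 : B (c2 t) (c2 t) = B (t • v) (t • v) + 2 * B (t • v) ((κ * t ^ 2) • ν) +
          B ((κ * t ^ 2) • ν) ((κ * t ^ 2) • ν) := by
        simp only [hc2]
        have : B (t • v + (κ * t ^ 2) • ν) = B (t • v) + B ((κ * t ^ 2) • ν) := map_add _ _ _
        rw [this, add_apply, map_add, map_add, hsym ((κ * t ^ 2) • ν) (t • v)]
        ring
      rw [e1, hess_smul B hsym v t, ← hHd]
      have nν : ‖(κ * t ^ 2) • ν‖ = ‖κ‖ * ‖t‖ ^ 2 := by
        rw [norm_smul, norm_mul, norm_pow, hH.hν, mul_one]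
      have nv : ‖t • v‖ = ‖t‖ * ‖v‖ := norm_smul _ _
      have k1 := (abs_le.1 (key B (le_refl K) (t • v) ((κ * t ^ 2) • ν))).1
      have k2 := (abs_le.1 (key B (le_refl K) ((κ * t ^ 2) • ν) ((κ * t ^ 2) • ν))).1
      rw [nν, nv] at k1
      rw [nν] at k2
      have t4 : ‖t‖ ^ 4 ≤ ‖t‖ ^ 3 :=
        pow_le_pow_of_le_one (norm_nonneg _) (ht.trans hR1) (by norm_num)
      have k3 : K * (‖κ‖ * ‖t‖ ^ 2) * (‖κ‖ * ‖t‖ ^ 2) ≤ K * ‖κ‖ ^ 2 * ‖t‖ ^ 3 := by
        calc K * (‖κ‖ * ‖t‖ ^ 2) * (‖κ‖ * ‖t‖ ^ 2) = K * ‖κ‖ ^ 2 * ‖t‖ ^ 4 := by ring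
          _ ≤ _ := mul_le_mul_of_nonneg_left t4 (by positivity)
      have k4 : K * (‖t‖ * ‖v‖) * (‖κ‖ * ‖t‖ ^ 2) = K * ‖v‖ * ‖κ‖ * ‖t‖ ^ 3 := by ring
      rw [hM]
      nlinarith
    have hεX : H / (16 * A ^ 2) * ‖c2 t‖ ^ 2 ≤ H / 16 * ‖t‖ ^ 2 := by
      have h2 : ‖c2 t‖ ^ 2 ≤ (A * ‖t‖) ^ 2 := pow_le_pow_left₀ (norm_nonneg _) hXn 2
      calc H / (16 * A ^ 2) * ‖c2 t‖ ^ 2 ≤ H / (16 * A ^ 2) * (A * ‖t‖) ^ 2 :=
            mul_le_mul_of_nonneg_left h2 hε.le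
        _ = _ := by field_simp
    have hMt : M * ‖t‖ ^ 3 ≤ H / 8 * ‖t‖ ^ 2 := by
      have h2 : M * ‖t‖ ≤ H / 8 := by nlinarith [norm_nonneg t]
      calc M * ‖t‖ ^ 3 = (M * ‖t‖) * ‖t‖ ^ 2 := by ring
        _ ≤ _ := mul_le_mul_of_nonneg_right h2 (by positivity)
    rw [hLX] at h1
    nlinarith
  -- the discs
  set s₁ : ℝ := η / 4 with hs₁
  have hs₁0 : 0 < s₁ := by positivity
  set φ : ℝ × ℂ → V n := fun a => q + c2 a.2 + ((-a.1 : ℝ) : ℂ) • ν with hφ
  have hφin : ∀ (s : ℝ) (t : ℂ), 0 ≤ s → s ≤ s₁ → ‖t‖ ≤ R → φ (s, t) ∈ ball p r₀ := by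
    intro s t hs hs' ht
    rw [mem_ball, dist_eq_norm]
    have e1 : φ (s, t) - p = (q - p) + (c2 t + ((-s : ℝ) : ℂ) • ν) := by
      simp only [hφ]; abel
    rw [e1]
    have n1 : ‖((-s : ℝ) : ℂ) • ν‖ = s := by
      rw [norm_smul, hH.hν, mul_one, Complex.norm_real, Real.norm_eq_abs, abs_neg, abs_of_nonneg hs]
    have n2 : ‖c2 t‖ ≤ η / 2 :=
      (hc2n t ht).trans ((mul_le_mul_of_nonneg_left ht hA0.le).trans hR3)
    have n3 := norm_add_le (q - p) (c2 t + ((-s : ℝ) : ℂ) • ν)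
    have n4 := norm_add_le (c2 t) (((-s : ℝ) : ℂ) • ν)
    have n5 : ‖q - p‖ = r₀ - η := by rw [hη, dist_eq_norm]; ring
    rw [n1] at n4
    linarith
  have hφh : ∀ (s : ℝ) (t : ℂ), 0 ≤ s → s ≤ s₁ → ‖t‖ ≤ R → H / 8 * ‖t‖ ^ 2 + s ≤ h (φ (s, t)) := by
    intro s t hs hs' ht
    obtain ⟨h1, h2⟩ := hlow t ht
    have h3 := hH.shift (q + c2 t) h1 (-s) (hφin s t hs hs' ht)
    have h4 : h (φ (s, t)) = h (q + c2 t) - -s := h3
    rw [h4]
    linarith
  have hφc : Continuous φ := by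
    simp only [hφ, hc2]
    fun_prop
  obtain ⟨f, F, z, hF⟩ := hΩ.frame
  have hΩo : IsOpen Ω := by
    rw [hΩ.eq]
    exact isOpen_lt hΩ.smooth.continuous continuous_const
  set KS : Set (V n) := φ '' (Icc (0 : ℝ) s₁ ×ˢ sphere (0 : ℂ) R) with hKS
  have hKSc : IsCompact KS := (isCompact_Icc.prod (isCompact_sphere _ _)).image hφc
  have hKSΩ : KS ⊆ Ω := by
    rintro _ ⟨⟨s, t⟩, ⟨hs, ht⟩, rfl⟩
    simp only [Set.mem_Icc] at hs
    have ht' : ‖t‖ = R := mem_sphere_zero_iff_norm.1 ht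
    refine mem_Om hΩ hH (hφin s t hs.1 hs.2 ht'.le) ?_
    have h1 := hφh s t hs.1 hs.2 ht'.le
    have h2 : 0 < H / 8 * ‖t‖ ^ 2 := by rw [ht']; positivity
    linarith [hs.1]
  have hKSne : KS.Nonempty := by
    refine ⟨φ (0, (R : ℂ)), ⟨(0, (R : ℂ)), ⟨?_, ?_⟩, rfl⟩⟩
    · exact ⟨le_rfl, hs₁0.le⟩
    · rw [mem_sphere_zero_iff_norm, Complex.norm_real, Real.norm_eq_abs, abs_of_pos hR0]
  obtain ⟨k₀, hk₀, hmax⟩ := hKSc.exists_isMaxOn hKSne
    ((hF.hF.continuousOn.mono hKSΩ).norm)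
  set Mx : ℝ := ‖F k₀‖ with hMx
  have hMx1 : Mx < 1 := mem_ball_zero_iff.1 (hF.hFm (hKSΩ hk₀))
  -- maximum principle
  have hmp : ∀ s : ℝ, 0 < s → s ≤ s₁ → ‖F (φ (s, 0))‖ ≤ Mx := by
    intro s hs hs'
    have hdφ : Differentiable ℂ (fun t : ℂ => φ (s, t)) := by
      simp only [hφ, hc2]
      fun_prop
    have hd : DifferentiableOn ℂ (fun t : ℂ => F (φ (s, t))) (closedBall 0 R) := by
      intro t ht
      have ht' : ‖t‖ ≤ R := mem_closedBall_zero_iff.1 ht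
      have hmem : φ (s, t) ∈ Ω := by
        refine mem_Om hΩ hH (hφin s t hs.le hs' ht') ?_
        have h1 := hφh s t hs.le hs' ht'
        have h2 : 0 ≤ H / 8 * ‖t‖ ^ 2 := by positivity
        linarith
      have h1 : DifferentiableAt ℂ F (φ (s, t)) := (hF.hF).differentiableAt (hΩo.mem_nhds hmem)
      exact (h1.comp t (hdφ t)).differentiableWithinAt
    have hcl : closure (ball (0 : ℂ) R) = closedBall 0 R := closure_ball _ hR0.ne'
    have hdc : DiffContOnCl ℂ (fun t : ℂ => F (φ (s, t))) (ball 0 R) := by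
      apply DifferentiableOn.diffContOnCl
      rw [hcl]
      exact hd
    refine Complex.norm_le_of_forall_mem_frontier_norm_le isBounded_ball hdc ?_
      (subset_closure (mem_ball_self hR0))
    intro t ht
    rw [frontier_ball _ hR0.ne'] at ht
    exact hmax ⟨(s, t), ⟨⟨hs.le, hs'⟩, ht⟩, rfl⟩
  set K2 : Set (V n) := f '' closedBall 0 Mx with hK2
  have hK2s : closedBall (0 : V n) Mx ⊆ ball 0 1 := closedBall_subset_ball hMx1
  have hK2c : IsCompact K2 :=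
    (isCompact_closedBall _ _).image_of_continuousOn (hF.hf.continuousOn.mono hK2s)
  have hK2m : ∀ s : ℝ, 0 < s → s ≤ s₁ → φ (s, 0) ∈ K2 := by
    intro s hs hs'
    have hmem : φ (s, 0) ∈ Ω := by
      refine mem_Om hΩ hH (hφin s 0 hs.le hs' (by rw [norm_zero]; exact hR0.le)) ?_
      have h1 := hφh s 0 hs.le hs' (by rw [norm_zero]; exact hR0.le)
      rw [norm_zero] at h1
      linarith
    exact ⟨F (φ (s, 0)), mem_closedBall_zero_iff.2 (hmp s hs hs'), hF.right _ hmem⟩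
  have hlim : Tendsto (fun s : ℝ => φ (s, 0)) (𝓝[>] 0) (𝓝 q) := by
    have h1 : ContinuousAt (fun s : ℝ => φ (s, 0)) 0 := by
      have : Continuous (fun s : ℝ => φ (s, 0)) := hφc.comp (by fun_prop)
      exact this.continuousAt
    have h2 : φ (0, 0) = q := by simp [hφ, hc2]
    have h3 := h1.tendsto
    simp only [h2] at h3
    exact h3.mono_left nhdsWithin_le_nhds
  have hqK : q ∈ K2 := by
    refine hK2c.isClosed.mem_of_tendsto hlim ?_
    filter_upwards [Ioc_mem_nhdsGT hs₁0] with s hs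
    exact hK2m s hs.1 hs.2
  have hqΩ : q ∈ Ω := by
    obtain ⟨x, hx, rfl⟩ := hqK
    exact hF.hfm (hK2s hx)
  rw [hΩ.eq] at hqΩ
  have h1 := (hH.zero q hq).2 hq0
  have h2 : ρ q < 0 := hqΩ
  linarith

/-- Step 2: the derivatives are invariant along `ν` -/
theorem step2 (hH : Ht ρ p ν h r₀ C) {w : V n} (hw : w ∈ ball p r₀) {s : ℝ}
    (hws : w + s • ν ∈ ball p r₀) : fderiv ℝ h (w + s • ν) = fderiv ℝ h w ∧
      fderiv ℝ (fderiv ℝ h) (w + s • ν) = fderiv ℝ (fderiv ℝ h) w := by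
  have hev : ∀ᶠ x in 𝓝 w, x ∈ ball p r₀ ∧ x + s • ν ∈ ball p r₀ := by
    have h1 : ∀ᶠ x in 𝓝 w, x ∈ ball p r₀ := isOpen_ball.mem_nhds hw
    have h2 : ∀ᶠ x in 𝓝 w, x + s • ν ∈ ball p r₀ := by
      have hc : ContinuousAt (fun x : V n => x + s • ν) w := by fun_prop
      exact hc.eventually_mem (isOpen_ball.mem_nhds hws)
    exact h1.and h2
  have key2 : ∀ x : V n, (∀ᶠ y in 𝓝 x, y ∈ ball p r₀ ∧ y + s • ν ∈ ball p r₀) →
      fderiv ℝ h (x + s • ν) = fderiv ℝ h x := by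
    intro x hx
    have e1 : (fun y : V n => h (y + s • ν)) =ᶠ[𝓝 x] fun y => h y - s := by
      filter_upwards [hx] with y hy
      have := hH.shift y hy.1 s (by rw [Complex.coe_smul]; exact hy.2)
      rwa [Complex.coe_smul] at this
    have e2 := e1.fderiv_eq (𝕜 := ℝ)
    rw [fderiv_comp_add_right, fderiv_sub_const] at e2
    exact e2
  have hE : ∀ᶠ x in 𝓝 w, fderiv ℝ h (x + s • ν) = fderiv ℝ h x := by
    filter_upwards [eventually_eventually_nhds.2 hev] with x hx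
    exact key2 x hx
  refine ⟨hE.self_of_nhds, ?_⟩
  have e3 := Filter.EventuallyEq.fderiv_eq (𝕜 := ℝ) (f₁ := fun x => fderiv ℝ h (x + s • ν))
    (f := fderiv ℝ h) (x := w) hE
  rwa [fderiv_comp_add_right] at e3

end ht

/-- SB-PSC -/
theorem t_psc : S_psc := by
  intro n Ω ρ p ν h r₀ C hΩ hH
  have hr₀ := hH.r0
  have hC := hH.C0
  have hp : p ∈ ball p r₀ := mem_ball_self hr₀
  have hhp : h p = 0 := (hH.zero p hp).1 hH.hp
  -- bounds of the derivatives
  have hsub : closedBall p (r₀ / 2) ⊆ ball p r₀ := closedBall_subset_ball (by linarith)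
  have hc1 : ContinuousOn (fun x => ‖fderiv ℝ h x‖) (closedBall p (r₀ / 2)) :=
    fun x hx => (ht_d1 hH (hsub hx)).continuousAt.norm.continuousWithinAt
  obtain ⟨K0, hK0⟩ := bdd_gen (isCompact_closedBall p (r₀ / 2)) (fun x hx => ht_cd hH (hsub hx))
  obtain ⟨A0, hA0⟩ := ((isCompact_closedBall p (r₀ / 2)).image_of_continuousOn hc1).bddAbove
  set K : ℝ := |K0| + 1 with hK
  set A : ℝ := |A0| with hA
  have hKp : 0 < K := by positivity
  have hAp : 0 ≤ A := abs_nonneg _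
  have hKb : ∀ x ∈ closedBall p (r₀ / 2), ‖fderiv ℝ (fderiv ℝ h) x‖ ≤ K := by
    intro x hx
    have := hK0 x hx
    linarith [le_abs_self K0]
  have hAb : ∀ x ∈ closedBall p (r₀ / 2), ‖fderiv ℝ h x‖ ≤ A := by
    intro x hx
    have := hA0 ⟨x, hx, rfl⟩
    simp only at this
    linarith [le_abs_self A0]
  refine ⟨r₀ / (2 * (1 + C)), 4 * K * (1 + 2 * A) + 4 * K * A, by positivity, ?_, by positivity, ?_⟩
  · exact div_le_self hr₀.le (by linarith)
  intro w hw v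
  have hw' : ‖w - p‖ < r₀ / (2 * (1 + C)) := by rwa [mem_ball, dist_eq_norm] at hw
  have hwr : ‖w - p‖ * (2 * (1 + C)) < r₀ := by rwa [lt_div_iff₀ (by positivity)] at hw'
  have hwr2 : ‖w - p‖ ≤ r₀ / 2 := by nlinarith [norm_nonneg (w - p)]
  have hwc : w ∈ closedBall p (r₀ / 2) := by rwa [mem_closedBall, dist_eq_norm]
  have hwb : w ∈ ball p r₀ := hsub hwc
  have hhw : |h w| ≤ C * ‖w - p‖ := by
    have := hH.lip w hwb p hp
    rwa [hhp, sub_zero] at this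
  have hwb' : w + (h w) • ν ∈ ball p r₀ := by
    rw [mem_ball, dist_eq_norm]
    have e1 : w + (h w) • ν - p = (w - p) + (h w) • ν := by abel
    rw [e1]
    have n1 : ‖(h w) • ν‖ = |h w| := by rw [norm_smul, hH.hν, mul_one, Real.norm_eq_abs]
    have n2 := norm_add_le (w - p) ((h w) • ν)
    rw [n1] at n2
    nlinarith [norm_nonneg (w - p)]
  obtain ⟨e1, e2⟩ := step2 hH hwb hwb'
  have hq0 : h (w + (h w) • ν) = 0 := by
    have := hH.shift w hwb (h w) (by rw [Complex.coe_smul]; exact hwb')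
    rw [Complex.coe_smul] at this
    rw [this, sub_self]
  have hlevi : ∀ v, fderiv ℝ h w v = 0 → fderiv ℝ h w (Complex.I • v) = 0 →
      hh (fderiv ℝ (fderiv ℝ h) w) v ≤ 0 := by
    intro v hv hIv
    rw [← e2]
    exact step1 hΩ hH hwb' hq0 (by rw [e1]; exact hv) (by rw [e1]; exact hIv)
  exact step3 (fderiv ℝ (fderiv ℝ h) w) (fun v w' => ht_symm hH hwb v w') (hKb w hwc) hKp.le hAp
    (fderiv ℝ h w) (hAb w hwc) ν hH.hν (ht_el hH hwb) hlevi v

end Pool.Agent.W591.SB
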